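import Pool.Agent.H1.TB.Main

set_option autoImplicit false
set_option linter.unusedSectionVars false
set_option linter.unusedVariables false

/-! # Families with block forms in formal coordinates -/

namespace Pool.Agent.H1.TW

open MvPolynomial
open Pool.Agent.H1.QB
open Pool.Agent.H1.TB (jind_of_dist)
open Pool.Agent.W749.JI (fam JInd)

/-- in a part of a system of formal coordinates the `f_i` are, up to units, sparse polynomials -/
def FM (n r : ℕ) (f : Fin r → MvPolynomial (Fin n) ℂ) : Prop :=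
  ∃ (c k : ℕ) (G : Fin c → MvPowerSeries (Fin n) ℂ) (s : Fin c → Fin n) (π : Fin k → Fin r)
    (m : Fin k → Fin c → ℕ) (γ : Fin k → ℂ) (D : Fin r → MvPowerSeries (Fin n) ℂ), 0 < k ∧
    (∀ t, MvPowerSeries.constantCoeff (G t) = 0) ∧
    (Matrix.of fun u t => MvPowerSeries.coeff (Finsupp.single (s u) 1) (G t)).det ≠ 0 ∧
    (∀ j, γ j ≠ 0) ∧ JInd π m ∧ (∀ j, m j ≠ 0) ∧ (∀ i, IsUnit (D i)) ∧
    ∀ i, D i * (f i : MvPowerSeries (Fin n) ℂ) = aeval G (fam π m γ i)

/-- **Removal of units: the class of germs.** -/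
theorem fm_formal {n c k r : ℕ} (hk : 0 < k) (f : Fin r → MvPolynomial (Fin n) ℂ)
    (g : Fin c → MvPolynomial (Fin n) ℂ)
    (s : Fin c → Fin n) (hg : ∀ t, constantCoeff (g t) = 0)
    (hdet : (Matrix.of fun u t => coeff (Finsupp.single (s u) 1) (g t)).det ≠ 0)
    (π : Fin k → Fin r) (m : Fin k → Fin c → ℕ) (U : Fin k → MvPolynomial (Fin n) ℂ)
    (hU : ∀ j, constantCoeff (U j) ≠ 0)
    (D : Fin r → MvPolynomial (Fin n) ℂ) (hD : ∀ i, constantCoeff (D i) ≠ 0)
    (heq : ∀ i, D i * f i = ∑ j ∈ Finset.univ.filter (fun j => π j = i), U j * ∏ t, g t ^ m j t)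
    (cl : Fin k → Fin c) (pu : Fin k → Prop) (hm : Dist cl pu m) :
    FM n r f := by
  classical
  set φ : ℂ →+* ℂ := RingHom.id ℂ with hφ
  set γ : Fin k → ℂ := fun j => constantCoeff (U j) with hγ
  have hγ0 : ∀ j, γ j ≠ 0 := fun j => hU j
  have hDc : ∀ i, MvPowerSeries.constantCoeff (Th (Fin n) φ (D i)) ≠ 0 := by
    intro i
    rw [Th_cc]
    exact hD i
  set u : Fin k → MvPowerSeries (Fin n) ℂ := fun j =>
    MvPowerSeries.C ((γ j)⁻¹) * Th (Fin n) φ (U j) with hu
  have hu1 : ∀ j, MvPowerSeries.constantCoeff (u j) = 1 := by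
    intro j
    rw [hu]
    beta_reduce
    rw [map_mul, MvPowerSeries.constantCoeff_C, Th_cc]
    exact inv_mul_cancel₀ (hγ0 j)
  choose ρ hρ hρ1 using fun j => root_series (u j) (hu1 j) (m j (cl j)) (hm.ne j)
  have hρi : ∀ j, ρ j * (ρ j)⁻¹ = 1 := fun j =>
    MvPowerSeries.mul_inv_cancel _ (by rw [hρ1]; exact one_ne_zero)
  have hρi1 : ∀ j, MvPowerSeries.constantCoeff ((ρ j)⁻¹) = 1 := fun j => by
    rw [MvPowerSeries.constantCoeff_inv, hρ1, inv_one]
  set u' : Fin k → MvPowerSeries (Fin n) ℂ := fun j =>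
    u j * ∏ j' ∈ Finset.univ.filter (fun j' => pu j'), ((ρ j')⁻¹) ^ m j (cl j') with hu'
  have hu'1 : ∀ j, MvPowerSeries.constantCoeff (u' j) = 1 := by
    intro j
    rw [hu']
    beta_reduce
    rw [map_mul, hu1, one_mul, map_prod]
    refine Finset.prod_eq_one fun j' _ => ?_
    rw [map_pow, hρi1, one_pow]
  choose υ hυ hυ1 using fun j => root_series (u' j) (hu'1 j) (m j (cl j)) (hm.ne j)
  set q : Fin k → MvPowerSeries (Fin n) ℂ := fun j => if pu j then ρ j else υ j with hq
  have hq1 : ∀ j, MvPowerSeries.constantCoeff (q j) = 1 := by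
    intro j
    rw [hq]
    beta_reduce
    split_ifs
    · exact hρ1 j
    · exact hυ1 j
  have hqp : ∀ j, pu j → q j * (ρ j)⁻¹ = 1 := by
    intro j hj
    rw [hq]
    beta_reduce
    rw [if_pos hj]
    exact hρi j
  have hqp1 : ∀ j, pu j → q j ^ m j (cl j) = u j := by
    intro j hj
    rw [hq]
    beta_reduce
    rw [if_pos hj]
    exact hρ j
  have hqp2 : ∀ j, ¬ pu j → q j ^ m j (cl j) = u j * ∏ j' ∈ Finset.univ.filter
      (fun j' => pu j'), ((ρ j')⁻¹) ^ m j (cl j') := by
    intro j hj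
    rw [hq]
    beta_reduce
    rw [if_neg hj]
    exact hυ j
  set G : Fin c → MvPowerSeries (Fin n) ℂ := newG cl (fun t => Th (Fin n) φ (g t)) q with hG
  have hPi : ∀ t, MvPowerSeries.constantCoeff
      (∏ j ∈ Finset.univ.filter (fun j => cl j = t), q j) = 1 := by
    intro t
    rw [map_prod]
    exact Finset.prod_eq_one fun j _ => hq1 j
  have hG0 : ∀ t, MvPowerSeries.constantCoeff (G t) = 0 := by
    intro t
    rw [hG, newG, map_mul, Th_cc, hg t, map_zero, zero_mul]
  have hG1 : ∀ (i : Fin n) t, MvPowerSeries.coeff (Finsupp.single i 1) (G t) =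
      coeff (Finsupp.single i 1) (g t) := by
    intro i t
    rw [hG, newG, coeff1_mul, hPi, mul_one, Th_cc, hg t, map_zero, zero_mul, add_zero, Th_coeff]
    rfl
  have hdetG : (Matrix.of fun u t => MvPowerSeries.coeff (Finsupp.single (s u) 1) (G t)).det ≠ 0 := by
    have h1 : (Matrix.of fun u t => MvPowerSeries.coeff (Finsupp.single (s u) 1) (G t)) =
        (Matrix.of fun u t => coeff (Finsupp.single (s u) 1) (g t)) := by
      ext1 u t
      rw [Matrix.of_apply, hG1]
      rfl
    rw [h1]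
    exact hdet
  have hTh : ∀ A : MvPolynomial (Fin n) ℂ, Th (Fin n) φ A = (A : MvPowerSeries (Fin n) ℂ) := by
    intro A
    rw [Th_apply, hφ, MvPolynomial.map_id]
  have hae : ∀ i, aeval G (fam π m γ i) = Th (Fin n) φ (D i) * Th (Fin n) φ (f i) := by
    intro i
    rw [← map_mul (Th (Fin n) φ), heq, map_sum, fam, map_sum]
    refine Finset.sum_congr rfl fun j _ => ?_
    rw [map_mul, aeval_C, map_prod, map_mul, map_prod]
    simp only [map_pow, aeval_X]
    rw [hG, newG_prod' cl pu m hm _ q (fun j => (ρ j)⁻¹) u hqp hqp1 hqp2 j, hu]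
    beta_reduce
    have h1 : (algebraMap ℂ (MvPowerSeries (Fin n) ℂ)) (γ j) * MvPowerSeries.C ((γ j)⁻¹) = 1 := by
      change MvPowerSeries.C (γ j) * MvPowerSeries.C ((γ j)⁻¹) = 1
      rw [← map_mul, mul_inv_cancel₀ (hγ0 j), map_one]
    linear_combination ((∏ t, Th (Fin n) φ (g t) ^ m j t) * (Th (Fin n) φ (U j))) * h1
  refine ⟨c, k, G, s, π, m, γ, fun i => Th (Fin n) φ (D i), hk, hG0, hdetG,
    fun j => hγ0 j, jind_of_dist π cl pu m hm, fun j h => hm.ne j (by rw [h]; rfl), fun i => ?_,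
    fun i => ?_⟩
  · rw [MvPowerSeries.isUnit_iff_constantCoeff]
    exact isUnit_iff_ne_zero.2 (hDc i)
  · rw [hae i, hTh (f i)]

/-- **Families with a joint block form.** -/
theorem fm_germ {n r : ℕ} {T J : Type} [Fintype T] [Fintype J] [Nonempty J]
    (f : Fin r → MvPolynomial (Fin n) ℂ) (g : T → MvPolynomial (Fin n) ℂ)
    (hg : ∀ t, constantCoeff (g t) = 0)
    (hli : LinearIndependent ℂ fun t => fun i : Fin n => coeff (Finsupp.single i 1) (g t))
    (π : J → Fin r) (m : J → T → ℕ) (U : J → MvPolynomial (Fin n) ℂ)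
    (hU : ∀ j, constantCoeff (U j) ≠ 0) (D : Fin r → MvPolynomial (Fin n) ℂ)
    (hD : ∀ i, constantCoeff (D i) ≠ 0)
    (heq : ∀ i, D i * f i = ∑ j ∈ Finset.univ.filter (fun j => π j = i), U j * ∏ t, g t ^ m j t)
    (cl : J → T) (pu : J → Prop) (hq : Dist cl pu m) : FM n r f := by
  classical
  set eT : T ≃ Fin (Fintype.card T) := Fintype.equivFin T with heT
  set eJ : J ≃ Fin (Fintype.card J) := Fintype.equivFin J with heJ
  set c := Fintype.card T with hc
  set k := Fintype.card J with hk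
  have hk0 : 0 < k := Fintype.card_pos
  set m' : Fin k → Fin c → ℕ := fun j t => m (eJ.symm j) (eT.symm t) with hm'
  set cl' : Fin k → Fin c := fun j => eT (cl (eJ.symm j)) with hcl'
  set pu' : Fin k → Prop := fun j => pu (eJ.symm j) with hpu'
  have hpr : Dist cl' pu' m' := by
    refine ⟨fun j j' h => ?_, fun j => ?_, fun j hj j' hne => ?_, fun j hj t ht => ?_⟩
    · exact eJ.symm.injective (hq.inj (eT.injective h))
    · rw [hm', hcl']
      beta_reduce
      rw [Equiv.symm_apply_apply]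
      exact hq.ne _
    · rw [hm', hcl']
      beta_reduce
      rw [Equiv.symm_apply_apply]
      exact hq.priv _ hj _ fun h5 => hne (eJ.symm.injective h5)
    · rw [hm']
      beta_reduce
      refine hq.pure _ hj _ fun h5 => ht ?_
      rw [hcl']
      beta_reduce
      rw [← h5, Equiv.apply_symm_apply]
  obtain ⟨s, hs⟩ := exists_minor (fun t : Fin c => fun i : Fin n =>
    coeff (Finsupp.single i 1) (g (eT.symm t))) (hli.comp eT.symm eT.symm.injective)
  refine fm_formal hk0 f (fun t => g (eT.symm t)) s (fun t => hg _) hs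
    (fun j => π (eJ.symm j)) m' (fun j => U (eJ.symm j)) (fun j => hU _) D hD (fun i => ?_)
    cl' pu' hpr
  rw [heq, Finset.sum_filter, Finset.sum_filter, ← eJ.symm.sum_comp]
  refine Finset.sum_congr rfl fun j _ => ?_
  by_cases h : π (eJ.symm j) = i
  · rw [if_pos h, if_pos h, ← eT.symm.prod_comp]
  · rw [if_neg h, if_neg h]

open Classical in
/-- **Polynomials with block forms in separate variables.** -/
theorem fm_family {r n : ℕ} (hr : 0 < r) (σ : Fin r → Type) [∀ i, Fintype (σ i)]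
    (F : ∀ i, MvPolynomial (σ i) ℂ) (hF : ∀ i, F i ≠ 0)
    (h : ∀ i, ∃ (B V I : Type) (_ : Fintype B) (_ : Fintype V) (_ : Fintype I)
      (d : BD B V I), IsBF (F i) d) (e : (Σ i, σ i) ≃ Fin n) :
    FM n r fun i => rename (fun x => e ⟨i, x⟩) (F i) := by
  choose B V I iB iV iI d l ξ U W D hl hξ hU hW hD hli heq using h
  have hN : ∀ i, Nonempty (I i ⊕ {k // (d i).A k}) := by
    intro i
    have hD' : D i ≠ 0 := by
      intro h0
      apply hD i
      rw [h0, map_zero]
    have hDF : D i * F i ≠ 0 := mul_ne_zero hD' (hF i)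
    by_contra h0
    rw [not_nonempty_iff] at h0
    have hI : IsEmpty (I i) := ⟨fun j => h0.1 (Sum.inl j)⟩
    have hA : IsEmpty {k // (d i).A k} := ⟨fun j => h0.1 (Sum.inr j)⟩
    apply hDF
    rw [heq, Finset.sum_of_isEmpty, Finset.sum_of_isEmpty, add_zero]
  set ρ : ∀ i, MvPolynomial (σ i) ℂ →ₐ[ℂ] MvPolynomial (Fin n) ℂ := fun i =>
    rename (fun x => e ⟨i, x⟩) with hρ
  have hcc : ∀ i (P : MvPolynomial (σ i) ℂ), constantCoeff (ρ i P) = constantCoeff P :=
    fun i P => constantCoeff_rename _ P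
  have hin : ∀ i, Function.Injective (fun x : σ i => e ⟨i, x⟩) := by
    intro i x y hxy
    have h1 := e.injective hxy
    simpa using h1
  have hc1 : ∀ (i i' : Fin r) (x : σ i') (P : MvPolynomial (σ i) ℂ),
      coeff (Finsupp.single (e ⟨i', x⟩) 1) (ρ i P) =
        if h : i = i' then coeff (Finsupp.single (h ▸ x) 1) P else 0 := by
    intro i i' x P
    by_cases h : i = i'
    · subst h
      rw [dif_pos rfl]
      have h1 : Finsupp.single (e ⟨i, x⟩) 1 =
          Finsupp.mapDomain (fun x : σ i => e ⟨i, x⟩) (Finsupp.single x 1) := by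
        rw [Finsupp.mapDomain_single]
      rw [h1, hρ]
      exact coeff_rename_mapDomain _ (hin i) _ _
    · rw [dif_neg h]
      refine coeff_rename_eq_zero _ _ _ fun u hu => ?_
      exfalso
      have h1 := congrArg (fun v => v (e ⟨i', x⟩)) hu
      simp only [Finsupp.single_eq_same] at h1
      rw [Finsupp.mapDomain_of_notMem_range] at h1
      · exact zero_ne_one h1
      · rintro ⟨y, hy⟩
        have h2 := e.injective hy
        exact h (congrArg Sigma.fst h2)
  have hJN : Nonempty (Σ i, (I i ⊕ {k // (d i).A k})) := by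
    obtain ⟨j⟩ := hN ⟨0, hr⟩
    exact ⟨⟨⟨0, hr⟩, j⟩⟩
  set m : (Σ i, (I i ⊕ {k // (d i).A k})) → (Σ i, (B i ⊕ V i)) → ℕ := fun j t =>
    if h : t.1 = j.1 then (d j.1).mt j.2 (h ▸ t.2) else 0 with hm
  have hm1 : ∀ i j t, m ⟨i, j⟩ ⟨i, t⟩ = (d i).mt j t := fun i j t => dif_pos rfl
  have hm0 : ∀ i i' j t, i' ≠ i → m ⟨i, j⟩ ⟨i', t⟩ = 0 := fun i i' j t h => dif_neg h
  set cl : (Σ i, (I i ⊕ {k // (d i).A k})) → (Σ i, (B i ⊕ V i)) := fun j =>
    ⟨j.1, Sum.elim (fun i => Sum.inr (Function.surjInv (d j.1).sj i)) (fun k => Sum.inl k.1) j.2⟩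
    with hcl
  set pu : (Σ i, (I i ⊕ {k // (d i).A k})) → Prop := fun j =>
    Sum.elim (fun _ => False) (fun _ => True) j.2 with hpu
  have hdist : Dist cl pu m := by
    refine ⟨?_, ?_, ?_, ?_⟩
    · rintro ⟨i, j⟩ ⟨i', j'⟩ h
      have h1 : i = i' := congrArg Sigma.fst h
      subst h1
      have h2 := eq_of_heq (Sigma.mk.inj h).2
      have h3 : j = j' := (d i).dist.inj h2
      rw [h3]
    · rintro ⟨i, j⟩
      rw [hcl]
      beta_reduce
      rw [hm1]
      exact (d i).dist.ne j
    · rintro ⟨i, j⟩ hj ⟨i', j'⟩ hne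
      rw [hcl]
      beta_reduce
      by_cases h : i = i'
      · subst h
        rw [hm1]
        exact (d i).dist.priv j hj j' fun h => hne (by rw [h])
      · rw [hm0 _ _ _ _ h]
    · rintro ⟨i, j⟩ hj ⟨i', t⟩ hne
      by_cases h : i' = i
      · subst h
        rw [hm1]
        refine (d i').dist.pure j hj t fun h => hne ?_
        rw [hcl]
        beta_reduce
        rw [h]
      · exact hm0 _ _ _ _ h
  refine fm_germ (T := Σ i, (B i ⊕ V i)) (J := Σ i, (I i ⊕ {k // (d i).A k}))
    (fun i => ρ i (F i)) (fun t => ρ t.1 (Sum.elim (l t.1) (ξ t.1) t.2)) ?_ ?_ (fun j => j.1) m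
    (fun j => ρ j.1 (Sum.elim (U j.1) (fun k => W j.1 k.1) j.2)) ?_ (fun i => ρ i (D i)) ?_ ?_
    cl pu hdist
  · rintro ⟨i, k | v⟩
    · rw [hcc]
      exact hl i k
    · rw [hcc]
      exact hξ i v
  · rw [Fintype.linearIndependent_iff]
    intro c hc
    rintro ⟨i, t⟩
    have h1 := Fintype.linearIndependent_iff.1 (hli i) (fun t => c ⟨i, t⟩) ?_ t
    · exact h1
    · funext x
      have h2 := congrFun hc (e ⟨i, x⟩)
      rw [Finset.sum_apply, Fintype.sum_sigma, Finset.sum_eq_single i] at h2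
      · rw [Finset.sum_apply, Pi.zero_apply]
        rw [Pi.zero_apply] at h2
        rw [← h2]
        refine Finset.sum_congr rfl fun t _ => ?_
        rw [Pi.smul_apply, Pi.smul_apply]
        congr 1
        change _ = coeff (Finsupp.single (e ⟨i, x⟩) 1) (ρ i (Sum.elim (l i) (ξ i) t))
        rw [hc1, dif_pos rfl]
      · intro i' _ hne
        refine Finset.sum_eq_zero fun t _ => ?_
        rw [Pi.smul_apply]
        change _ • coeff (Finsupp.single (e ⟨i, x⟩) 1) (ρ i' (Sum.elim (l i') (ξ i') t)) = 0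
        rw [hc1, dif_neg hne, smul_zero]
      · exact fun h => absurd (Finset.mem_univ _) h
  · rintro ⟨i, j | k⟩
    · rw [hcc]
      exact hU i j
    · rw [hcc]
      exact hW i k.1 k.2
  · intro i
    rw [hcc]
    exact hD i
  · intro i
    have h1 : ∀ j : I i ⊕ {k // (d i).A k}, ∏ t : (Σ i, (B i ⊕ V i)),
        ρ t.1 (Sum.elim (l t.1) (ξ t.1) t.2) ^ m ⟨i, j⟩ t =
        ∏ t, ρ i (Sum.elim (l i) (ξ i) t) ^ (d i).mt j t := by
      intro j
      rw [Fintype.prod_sigma, Finset.prod_eq_single i]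
      · refine Finset.prod_congr rfl fun t _ => ?_
        rw [hm1]
      · intro i' _ hne
        refine Finset.prod_eq_one fun t _ => ?_
        rw [hm0 _ _ _ _ hne, pow_zero]
      · exact fun h => absurd (Finset.mem_univ _) h
    rw [Finset.sum_filter, Fintype.sum_sigma, Finset.sum_eq_single i]
    · rw [← map_mul, heq i, map_add, map_sum, map_sum, Fintype.sum_sum_type]
      congr 1
      · refine Finset.sum_congr rfl fun j _ => ?_
        rw [if_pos rfl, h1, map_mul, map_mul, map_prod, map_prod, Fintype.prod_sum_type]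
        simp only [map_pow]
        rfl
      · refine Finset.sum_congr rfl fun k _ => ?_
        rw [if_pos rfl, h1, map_mul, Fintype.prod_sum_type]
        simp only [Sum.elim_inr, Sum.elim_inl, BD.mt]
        simp only [pow_zero, Finset.prod_const_one, mul_one]
        rw [Finset.prod_eq_single k.1]
        · rw [if_pos rfl, map_pow]
        · intro k' _ hne
          rw [if_neg hne, pow_zero]
        · exact fun h => absurd (Finset.mem_univ _) h
    · intro i' _ hne
      refine Finset.sum_eq_zero fun j _ => ?_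
      rw [if_neg hne]
    · exact fun h => absurd (Finset.mem_univ _) h

end Pool.Agent.H1.TW
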