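import Pool.Graph.R_pool_sql_team_seeded_3997aac3.Q57.MD.Trans

set_option autoImplicit false
set_option linter.unusedSectionVars false
set_option linter.unusedVariables false

/-! # Transfer of local functional equations by formal coordinates -/

namespace Pool.Agent.H1.TW

open MvPolynomial Pool.Agent.Q49.CO
open Pool.Agent.Y229 Pool.Agent.Q57.MC Pool.Agent.Q57.MD
open Pool.Agent.W574.LM (IsLocEq)
open Pool.Agent.W574.HS (univ)
open Pool.Agent.H628R4.TP (IsBFunction IsLocalBFunction weylS)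

section

variable {σ J : Type} [Fintype σ] [Fintype J] {c r : ℕ}

theorem localBI_transf (f : J → MvPolynomial σ ℂ) (h : Fin r → MvPolynomial (Fin c) ℂ)
    (hT : Transf f h 0) (hne : ∃ k, h k ≠ 0) (b : Polynomial ℂ) (hb : IsLocalBI f b) :
    IsLocalBI h b := by
  classical
  obtain ⟨H, hH, hb⟩ := locEq_of_local f b hb
  rw [← MvPolynomial.eval_zero] at hH
  obtain ⟨Ξ, hΞ, hl, hr, hQ⟩ := hT
  obtain ⟨Q, mQ, hQ'⟩ := univ_of_locEq H f b hb
  obtain ⟨K, iK, a, D, hD⟩ := hQ Q mQ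
  have hcc : ∀ P : MvPolynomial (J ⊕ σ) ℂ, MvPowerSeries.constantCoeff (Ξ P) =
      eval (Sum.elim 0 0) P := by
    intro P
    have h1 : (MvPowerSeries.constantCoeff (σ := Fin r ⊕ Fin c) (R := ℂ)).comp
        (Ξ : MvPolynomial (J ⊕ σ) ℂ →+* MvPowerSeries (Fin r ⊕ Fin c) ℂ) =
        eval (Sum.elim 0 0) := by
      apply MvPolynomial.ringHom_ext
      · intro a
        rw [RingHom.comp_apply, eval_C]
        have h2 : (Ξ : MvPolynomial (J ⊕ σ) ℂ →+* MvPowerSeries (Fin r ⊕ Fin c) ℂ) (C a) =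
            MvPowerSeries.C a := Ξ.commutes a
        rw [h2, MvPowerSeries.constantCoeff_C]
      · intro x
        rw [RingHom.comp_apply, eval_X]
        rcases x with j | i
        · exact hl j
        · exact hr i
    exact congrArg (fun φ : MvPolynomial (J ⊕ σ) ℂ →+* ℂ => φ P) h1
  obtain ⟨u, hu⟩ : IsUnit (Ξ (rename Sum.inr H)) := by
    rw [MvPowerSeries.isUnit_iff_constantCoeff]
    refine isUnit_iff_ne_zero.2 ?_
    rw [hcc, eval_rename]
    exact hH
  refine localBI_of_univ h hne b ?_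
  set e := Fintype.equivFin K with he
  refine ⟨Fintype.card K, fun _ => 0, fun l => ((u⁻¹ : (MvPowerSeries (Fin r ⊕ Fin c) ℂ)ˣ) :
    MvPowerSeries (Fin r ⊕ Fin c) ℂ) * a (e.symm l), fun l => D (e.symm l), fun n => ?_⟩
  have k1 := congrArg Ξ (hQ' n)
  rw [map_mul, ← hu, C_mul', map_smul, map_pow, hΞ, hD] at k1
  have k2 := congrArg (fun x => ((u⁻¹ : (MvPowerSeries (Fin r ⊕ Fin c) ℂ)ˣ) :
    MvPowerSeries (Fin r ⊕ Fin c) ℂ) * x) k1
  beta_reduce at k2
  rw [Units.inv_mul_cancel_left, Finset.mul_sum] at k2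
  rw [MvPolynomial.coe_pow, ← MvPowerSeries.smul_eq_C_mul, k2, ← e.symm.sum_comp]
  refine Finset.sum_congr rfl fun l _ => ?_
  rw [pow_zero, map_one, one_mul, mul_assoc]

theorem local_of_BI (F : MvPolynomial σ ℂ) (b : Polynomial ℂ)
    (hb : IsLocalBI (fun _ : Fin 1 => F) b) : IsLocalBFunction F b := by
  classical
  obtain ⟨L, c, q, a, Q, hc, hQ⟩ := hb
  have hc1 : ∀ l, c l 0 = 1 := fun l => by
    have := hc l
    rwa [Fin.sum_univ_one] at this
  set T := Σ l : Fin L, (q l).support with hT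
  set e := Fintype.equivFin T with he
  refine ⟨Fintype.card T, fun i => (e.symm i).2.1 0,
    fun i => MvPowerSeries.C (coeff (e.symm i).2.1 (q (e.symm i).1)) * a (e.symm i).1,
    fun i => Q (e.symm i).1, fun s => ?_⟩
  have h1 := hQ fun _ => s
  rw [Fin.sum_univ_one, Fin.prod_univ_one] at h1
  rw [h1, e.symm.sum_comp (fun t : T => MvPowerSeries.C ((s : ℂ) ^ t.2.1 0) *
    (MvPowerSeries.C (coeff t.2.1 (q t.1)) * a t.1 *
      (((Q t.1 : Module.End ℂ (MvPolynomial σ ℂ)) (F ^ (s + 1)) : MvPolynomial σ ℂ) :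
          MvPowerSeries σ ℂ))), Fintype.sum_sigma]
  refine Finset.sum_congr rfl fun l _ => ?_
  rw [Fin.prod_univ_one, Fin.prod_univ_one, hc1]
  have h2 : ((-(1 : ℤ)).toNat) = 0 := by norm_num
  have h3 : ((s : ℤ) + 1).toNat = s + 1 := by omega
  rw [h2, Nat.choose_zero_right, Nat.cast_one, mul_one, h3]
  have h4 : eval (fun _ : Fin 1 => (s : ℂ)) (q l) =
      ∑ m : (q l).support, coeff m.1 (q l) * (s : ℂ) ^ m.1 0 := by
    rw [eval_eq', ← Finset.sum_coe_sort]
    refine Finset.sum_congr rfl fun m _ => ?_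
    rw [Fin.prod_univ_one]
  rw [h4, map_sum, Finset.sum_mul]
  refine Finset.sum_congr rfl fun m _ => ?_
  rw [map_mul]
  ring

/-- **Transfer of the local functional equation of one function.** -/
theorem local_formal {n c : ℕ} (f : MvPolynomial (Fin n) ℂ) (h : MvPolynomial (Fin c) ℂ)
    (g : Fin c → MvPowerSeries (Fin n) ℂ) (s : Fin c → Fin n)
    (hg : ∀ t, MvPowerSeries.constantCoeff (g t) = 0)
    (hdet : (Matrix.of fun u t => MvPowerSeries.coeff (Finsupp.single (s u) 1) (g t)).det ≠ 0)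
    (D : MvPowerSeries (Fin n) ℂ) (hD : IsUnit D)
    (hs : D * (f : MvPowerSeries (Fin n) ℂ) = aeval g h) (hne : h ≠ 0)
    (b : Polynomial ℂ) (hb : IsLocalBFunction f b) : IsLocalBFunction h b := by
  classical
  refine local_of_BI h b (localBI_transf (fun _ : Fin 1 => f) (fun _ : Fin 1 => h) ?_ ⟨0, hne⟩ b
    (localBI_one f b hb))
  refine transfer_formal _ _ g s hg hdet ?_
  obtain ⟨D, rfl⟩ := hD
  rw [Set.range_const, Set.range_const, ← hs]
  exact (Ideal.span_singleton_mul_left_unit D.isUnit _).symm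

end

end Pool.Agent.H1.TW
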