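import Pool.Agent.H1.TW.Sp
import Pool.Agent.H1.TW.Tr
import Pool.Agent.H1.TW.Fm

set_option autoImplicit false
set_option linter.unusedSectionVars false
set_option linter.unusedVariables false

/-! # The twisted local topological zeta functions of sums of quadric bundles over lines -/

namespace Pool.Agent.H1.TW

open MvPolynomial
open Pool.Agent.H1.QB
open Pool.Agent.H1.TB
open Pool.Agent.W749.JI (fam JInd)
open Pool.Agent.W425.SM (sparse Ind SmoothFan Principal)
open Pool.Agent.Y229.GL (topZetaTwistedLocal)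
open Pool.Agent.Q49.CO (trn functionalEq_trn localBI_of_fe)
open Pool.Agent.H628R4.TP (IsBFunction IsLocalBFunction)

/-- `F = D⁻¹ ∑_j a_j G ^ (v j)` in `ℂ[[x_1, …, x_n]]`, where `G_1, …, G_c` are a part of a system of formal
coordinates at the origin (`c × c` minor of the matrix of the linear parts), `D` is a unit, the `a_j` are not
zero, and the exponents `v j ≠ 0` are affinely independent. -/
def IsModel {n c k : ℕ} (F : MvPolynomial (Fin n) ℂ) (v : Fin k → Fin c → ℕ) (a : Fin k → ℂ) :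
    Prop :=
  AffineIndependent ℚ (fun j => (fun i => (v j i : ℚ) : Fin c → ℚ)) ∧ (∀ j, v j ≠ 0) ∧
    (∀ j, a j ≠ 0) ∧ ∃ (G : Fin c → MvPowerSeries (Fin n) ℂ) (s : Fin c → Fin n)
      (D : MvPowerSeries (Fin n) ℂ), (∀ t, MvPowerSeries.constantCoeff (G t) = 0) ∧
      (Matrix.of fun u t => MvPowerSeries.coeff (Finsupp.single (s u) 1) (G t)).det ≠ 0 ∧
      IsUnit D ∧ D * (F : MvPowerSeries (Fin n) ℂ) = aeval G (sparse v a)

theorem ind_of_jind {k c : ℕ} (π : Fin k → Fin 1) (m : Fin k → Fin c → ℕ) (h : JInd π m) :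
    Ind m := by
  classical
  unfold Ind
  rw [affineIndependent_iff]
  intro s w hw hp j hj
  have h1 := h (fun j => if j ∈ s then w j else 0) (fun i => ?_) (fun t => ?_) j
  · rw [if_pos hj] at h1
    exact h1
  · have : ∀ j, π j = i := fun j => Subsingleton.elim _ _
    simp only [this, if_true]
    rw [← Finset.sum_filter, Finset.filter_mem_eq_inter, Finset.univ_inter]
    exact hw
  · have h2 := congrFun hp t
    rw [Finset.sum_apply, Pi.zero_apply] at h2
    refine Eq.trans ?_ h2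
    rw [← Finset.sum_subset (Finset.subset_univ s)]
    · refine Finset.sum_congr rfl fun x hx => ?_
      beta_reduce
      rw [if_pos hx]
      rfl
    · intro x _ hx
      beta_reduce
      rw [if_neg hx, zero_mul]

/-- **The germs of sums of quadric bundles.** -/
theorem exists_model {n : ℕ} (A : Bundles) (hA : A.poly ≠ 0) (e : A.Var ≃ Fin n) (P : Fin n → ℂ)
    (hP : eval P (rename e A.poly) = 0) : ∃ (c k : ℕ) (v : Fin k → Fin c → ℕ) (a : Fin k → ℂ),
      0 < k ∧ IsModel (trn P (rename e A.poly)) v a := by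
  classical
  set e' : (Σ i : Fin 1, ((fun _ => A : Fin 1 → Bundles) i).Var) ≃ Fin n :=
    (Equiv.uniqueSigma fun i : Fin 1 => ((fun _ => A : Fin 1 → Bundles) i).Var).trans e with he'
  have h1 : ∀ i : Fin 1, (fun x => e' ⟨i, x⟩) = e := by
    intro i
    obtain rfl : i = 0 := Subsingleton.elim _ _
    rfl
  have h2 := fm_family (r := 1) one_pos (fun _ => A.Var)
    (fun _ => tr (fun x => P (e x)) A.poly)
    (fun i => tr_inj _ _ hA) (fun i => A.bf _ (by
      rw [eval_rename] at hP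
      exact hP)) e'
  obtain ⟨c, k, G, s, π, m, γ, D, hk, hG, hdet, hγ, hJ, hm, hD, hF⟩ := h2
  refine ⟨c, k, m, γ, hk, ind_of_jind π m hJ, hm, hγ, G, s, D 0, hG, hdet, hD 0, ?_⟩
  have h3 := hF 0
  beta_reduce at h3
  rw [h1, ← tr_rename] at h3
  rw [h3]
  congr 1
  unfold fam sparse
  rw [Finset.filter_true_of_mem fun j _ => Subsingleton.elim _ _]

theorem model_ne {n c k : ℕ} {F : MvPolynomial (Fin n) ℂ} {v : Fin k → Fin c → ℕ} {a : Fin k → ℂ}
    (hk : 0 < k) (h : IsModel F v a) : sparse v a ≠ 0 :=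
  Pool.Agent.W425.SL.sparse_ne_zero hk h.1 a h.2.2.1

/-- the functional equations at the points -/
theorem local_of_global {n : ℕ} (f : MvPolynomial (Fin n) ℂ) (P : Fin n → ℂ) (b : Polynomial ℂ)
    (hb : IsBFunction f b) : IsLocalBFunction (trn P f) b :=
  local_of_BI _ b (localBI_of_fe _ b (functionalEq_trn P _ b
    (Pool.Agent.Q57.MC.locEq1_of_eq f b hb)))

/-- **Germs with models.** -/
theorem model_strong {n c k : ℕ} (F : MvPolynomial (Fin n) ℂ) (v : Fin k → Fin c → ℕ)
    (a : Fin k → ℂ) (hk : 0 < k) (h : IsModel F v a) (R : SmoothFan c) (hR : Principal v R)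
    (b : Polynomial ℂ) (hb : IsLocalBFunction F b) (e : ℕ) (he : 1 ≤ e) :
    ∃ Q : Polynomial ℂ, algebraMap (Polynomial ℂ) (RatFunc ℂ) b * topZetaTwistedLocal v R e =
      algebraMap (Polynomial ℂ) (RatFunc ℂ) ((if e = 1 then 1 else Polynomial.X + 1) * Q) := by
  have hne := model_ne hk h
  obtain ⟨hv, hv0, ha, G, s, D, hG, hdet, hD, hF⟩ := h
  have h1 := local_formal F (sparse v a) G s hG hdet D hD hF hne b hb
  obtain ⟨-, ⟨Q, hQ⟩, h3⟩ := sparse_tw hk v a hv hv0 ha R hR b h1
  rcases Nat.lt_or_ge e 2 with h4 | h4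
  · obtain rfl : e = 1 := by omega
    refine ⟨Q, ?_⟩
    rw [if_pos rfl, one_mul]
    exact hQ
  · rw [if_neg (by omega)]
    exact h3 e h4

theorem sum_poly {T : Type} (s : Finset T) (b u : Polynomial ℂ) (Z : T → RatFunc ℂ) (χ : T → ℂ)
    (h : ∀ t ∈ s, ∃ Q : Polynomial ℂ, algebraMap (Polynomial ℂ) (RatFunc ℂ) b * Z t =
      algebraMap (Polynomial ℂ) (RatFunc ℂ) (u * Q)) :
    ∃ Q : Polynomial ℂ, algebraMap (Polynomial ℂ) (RatFunc ℂ) b *
      ∑ t ∈ s, RatFunc.C (χ t) * Z t = algebraMap (Polynomial ℂ) (RatFunc ℂ) (u * Q) := by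
  classical
  induction s using Finset.induction_on with
  | empty => exact ⟨0, by rw [Finset.sum_empty, mul_zero, mul_zero, map_zero]⟩
  | insert t s ht ih =>
    obtain ⟨Q, hQ⟩ := ih fun t' ht' => h t' (Finset.mem_insert_of_mem ht')
    obtain ⟨Q', hQ'⟩ := h t (Finset.mem_insert_self _ _)
    refine ⟨Polynomial.C (χ t) * Q' + Q, ?_⟩
    rw [Finset.sum_insert ht, mul_add, hQ, mul_add, map_add]
    congr 1
    have h1 : u * (Polynomial.C (χ t) * Q') = Polynomial.C (χ t) * (u * Q') := by ring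
    rw [h1, map_mul, ← hQ', ← RatFunc.algebraMap_C]
    ring

end Pool.Agent.H1.TW
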