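import Pool.Graph.R_seed8.Y229.PS.Weak
import Pool.Graph.R_seed8.W425.SL.Final
import Pool.Graph.R_seed8.W596.SL.L2

set_option autoImplicit false
set_option linter.unusedSectionVars false
set_option linter.unusedVariables false

/-! # The twisted local topological zeta functions of sparse polynomials, with orders -/

namespace Pool.Agent.H1.TW

open Polynomial Pool.Agent.H628R4.TZ Pool.Agent.H628R4.TP Pool.Agent.W425.SM
  Pool.Agent.W425.SG Pool.Agent.W422.GC Pool.Agent.W425.ND Pool.Agent.Y229.CF Pool.Agent.Y229.GL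
open Pool.Agent.W425.SV (RelV Kil1 Kil0)
open Pool.Agent.W425.SL (RelL)

variable {r N : ℕ}

theorem relV_of_relL (v : Fin r → Fin N → ℕ) (θ : Fin r → ℝ) (p : Polynomial ℂ)
    (h : RelL v p) : RelV v θ True p := by
  classical
  obtain ⟨M, Cs, q, Cs0, q0, h1, h0, hrel⟩ := h
  refine ⟨M, Cs.card, Cs0.card, fun k => (Cs.equivFin.symm k).1,
    fun k => Pool.Agent.H628R4.TZ.Bc v (Cs.equivFin.symm k).1,
    fun k => q (Cs.equivFin.symm k).1, fun k => (Cs0.equivFin.symm k).1,
    fun k => q0 (Cs0.equivFin.symm k).1, fun k => ?_, fun k => ?_, ?_⟩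
  · have h2 := h1 _ (Cs.equivFin.symm k).2
    refine ⟨fun _ => 0, fun _ => le_rfl, ?_, fun i hi => ?_⟩
    · simp only [add_zero]
      exact_mod_cast h2
    · simp only [add_zero]
      have h3 : ∑ j, (Cs.equivFin.symm k).1 j * (v j i : ℤ) ≤ 0 := by
        by_contra hcon
        apply hi
        unfold Pool.Agent.H628R4.TZ.Bc
        rw [Finset.mem_filter]
        exact ⟨Finset.mem_univ _, by push Not at hcon; exact hcon⟩
      exact_mod_cast h3
  · obtain ⟨h2, h3, i0, h4⟩ := h0 _ (Cs0.equivFin.symm k).2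
    refine Or.inr ⟨trivial, fun _ => 0, fun _ => le_rfl, ?_, fun i => ?_, i0, ?_⟩
    · simp only [add_zero]
      exact_mod_cast h2
    · simp only [add_zero]
      exact_mod_cast h3 i
    · simp only [add_zero]
      exact_mod_cast h4
  · rw [hrel]
    congr 1
    · rw [← Finset.sum_coe_sort, ← Cs.equivFin.symm.sum_comp]
    · rw [← Finset.sum_coe_sort, ← Cs0.equivFin.symm.sum_comp]

/-- **The twisted local topological zeta functions for affinely independent exponents.** -/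
theorem sparse_tw (hr : 1 ≤ r) (v : Fin r → Fin N → ℕ) (a : Fin r → ℂ) (hv : Ind v)
    (hv0 : ∀ j, v j ≠ 0) (ha : ∀ j, a j ≠ 0) (R : SmoothFan N) (hR : Principal v R) (b : ℂ[X])
    (hb : Pool.Agent.H628R4.TP.IsLocalBFunction (sparse v a) b) :
    b.eval (-1) = 0 ∧ (∃ P : ℂ[X], algebraMap ℂ[X] (RatFunc ℂ) b * topZetaTwistedLocal v R 1 =
      algebraMap ℂ[X] (RatFunc ℂ) P) ∧
    ∀ e : ℕ, 2 ≤ e → ∃ P : ℂ[X], algebraMap ℂ[X] (RatFunc ℂ) b * topZetaTwistedLocal v R e =
      algebraMap ℂ[X] (RatFunc ℂ) ((X + 1) * P) := by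
  have : NeZero r := ⟨by omega⟩
  obtain ⟨h1, h2⟩ := Pool.Agent.W368.SL.taskL1 (sparse v a) b
    (Pool.Agent.W425.SL.sparse_ne_zero hr hv a ha) (Pool.Agent.W425.SL.sparse_const hv0 a)
    (Pool.Agent.W425.SL.toSL hb)
  obtain ⟨p, hp⟩ := Polynomial.dvd_iff_isRoot.2 (show b.IsRoot (-1) from h1)
  have hp' : b = (Polynomial.X + 1) * p := by
    rw [hp]
    congr 1
    simp
  have hL : RelL v p := by
    rw [hp'] at h2
    exact Pool.Agent.W596.SL.taskL2 v a p hv ha h2
  obtain ⟨θ, hθ⟩ := exists_heights r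
  have hV := relV_of_relL v θ p hL
  refine ⟨h1, ?_, fun e he => ?_⟩
  · obtain ⟨P, hP⟩ := Pool.Agent.W425.SV.mainV_rel v hv.injective hv0 θ hθ True R hR (-1)
      (by norm_num) (fun _ => by norm_num) _ hV
    refine ⟨P, ?_⟩
    rw [tw_one, ← topZG_neg, topZG_eq v θ hθ, hp']
    exact hP
  · obtain ⟨P, hP⟩ := Pool.Agent.W422.GC.Tw.main_tw v hv.injective θ hθ True R hR e he (-1)
      (by norm_num) (fun _ => by norm_num) _ hV
    refine ⟨P, ?_⟩
    rw [tw_two v hv0 R hR e he, hp', map_mul, mul_assoc, hP, map_mul]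

end Pool.Agent.H1.TW
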